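import Pool.Agent.H75.GS.Targets2

/-!
# MP_0f8dca_lc: module DUM (the stage without algorithms)
-/

set_option autoImplicit false

namespace Pool.Agent.H11.GS

open Finset Filter Pool.Agent.H6.NB Pool.Agent.H70.OQ Pool.Agent.H75.GS

theorem pf_DUM (hLAK : T_LAK) : T_DUM := by
  classical
  intro κ V Q S g K prog hs r A σ hA hD hU
  refine ⟨fun s O => if s.length < Ln r then A s O else acck K prog s O, σ, ?_, hD, hU, ?_, ?_⟩
  · intro s O O' h
    by_cases h1 : s.length < Ln r
    · simp only [h1, if_true]
      exact hA s O O' h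
    · simp only [h1, if_false]
      exact hLAK K prog hs s O O' h
  · refine ⟨fun s hs => ?_, fun w _ => rfl⟩
    funext O
    simp only [hs, if_true]
  · refine ⟨0, [], fun s O h1 _ => ?_, fun A' σ' O _ _ => ⟨fun i hi => ?_, fun i hi => ?_⟩⟩
    · simp only [not_lt.2 h1, if_false]
      rw [if_neg (Nat.not_lt_zero _)]
    · exact absurd hi (Nat.not_lt_zero _)
    · exact absurd hi (Nat.not_lt_zero _)

end Pool.Agent.H11.GS
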