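import Pool.Agent.H75.GS.Targets
import Pool.Agent.H59.NB.BBV

/-!
# MP_0f8dca_lc: module HTS (the probabilities of the outputs)
-/

set_option autoImplicit false

namespace Pool.Agent.H11.GS

open Finset Filter Pool.Agent.H6.NB Pool.Agent.H70.OQ Pool.Agent.H75.GS

theorem pf_HTS : T_HTS := by
  classical
  intro S O O'
  refine ⟨fun E => ?_, fun E E' h => ?_, fun X N0 E M hM => ?_⟩
  · unfold Sampler.hit dst
    rw [Finset.mul_sum, Finset.mul_sum, ← Finset.sum_add_distrib]
    refine Finset.sum_le_sum fun z _ => ?_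
    have h0 : ‖S.alg.state O' S.alg.T z‖ ^ 2 ≤ 2 * ‖S.alg.state O S.alg.T z‖ ^ 2 +
        2 * ‖S.alg.state O' S.alg.T z - S.alg.state O S.alg.T z‖ ^ 2 := by
      have h1 : ‖S.alg.state O' S.alg.T z‖ ≤ ‖S.alg.state O S.alg.T z‖ +
          ‖S.alg.state O' S.alg.T z - S.alg.state O S.alg.T z‖ := by
        have := norm_add_le (S.alg.state O S.alg.T z)
          (S.alg.state O' S.alg.T z - S.alg.state O S.alg.T z)
        rwa [add_sub_cancel] at this
      nlinarith [norm_nonneg (S.alg.state O' S.alg.T z), norm_nonneg (S.alg.state O S.alg.T z),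
        norm_nonneg (S.alg.state O' S.alg.T z - S.alg.state O S.alg.T z),
        sq_nonneg (‖S.alg.state O S.alg.T z‖ -
          ‖S.alg.state O' S.alg.T z - S.alg.state O S.alg.T z‖)]
    split_ifs
    · exact h0
    · rw [mul_zero, zero_add]
      positivity
  · unfold Sampler.hit
    refine Finset.sum_le_sum fun z _ => ?_
    split_ifs with h1 h2
    · exact le_rfl
    · exact absurd (h h1) h2
    · positivity
    · exact le_rfl
  · unfold Sampler.hit
    rw [Finset.sum_comm]
    have h1 : ∀ z : S.alg.basis, (∑ x ∈ N0, if S.out z ∈ E x then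
        ‖S.alg.state O S.alg.T z‖ ^ 2 else 0) ≤ M * ‖S.alg.state O S.alg.T z‖ ^ 2 := by
      intro z
      rw [← Finset.sum_filter, Finset.sum_const, nsmul_eq_mul]
      exact mul_le_mul_of_nonneg_right (by exact_mod_cast hM (S.out z)) (by positivity)
    refine (Finset.sum_le_sum fun z _ => h1 z).trans ?_
    rw [← Finset.mul_sum]
    have h2 : ∑ z, ‖S.alg.state O S.alg.T z‖ ^ 2 = 1 := by
      rw [← Pool.Agent.H59.NB.BBV.norm_ev_sq, Pool.Agent.H59.NB.BBV.norm_state, one_pow]
    rw [h2, mul_one]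

end Pool.Agent.H11.GS
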