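import Pool.Agent.H28.GS.Targets

/-!
The row STS of the project GS: the induction step in terms of `UU`.
-/

set_option autoImplicit false

open Finset Filter Topology

namespace Pool.Agent.H11.GS

open Pool.Agent.H28.GS Pool.Agent.H31.GUF Pool.Agent.H31.DP
open Pool.Agent.H28.GU (Gw hat Dl aff T_PC)
open Pool.Agent.H28.GUG (cut G_BR G_LI G_FN)

theorem pf_STS (hSP : T_SPS) (hBR : G_BR) : T_STS := by
  classical
  intro d l δ hd hδ
  have h10 : (0 : ℝ) < 10 ^ (d + 3) := by positivity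
  obtain ⟨τ, hτ, hS⟩ := hSP d l (δ / 10 ^ (d + 3)) hd (div_pos hδ h10)
  refine ⟨τ, hτ, fun h W J ρ hW hJ hρ => ?_⟩
  obtain ⟨δ', hδ', K, hK⟩ := hS h W J ρ hW hJ hρ
  refine ⟨δ', hδ', K, fun x y hx hy => le_trans ?_ (hK x y hx hy)⟩
  refine Finset.sum_le_sum_of_subset_of_nonneg ?_ (fun N _ _ => by positivity)
  intro N hN
  rw [Finset.mem_filter, Finset.mem_Icc] at hN ⊢
  obtain ⟨⟨hN1, hN2⟩, E, φ, hE, hφ, hst, hN3, hN4⟩ := hN
  refine ⟨⟨hN1, hN2⟩, ?_⟩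
  have hN0 : 0 < N := lt_of_lt_of_le hx hN1
  obtain ⟨q, hq1, hq2, hq3⟩ := Nat.exists_prime_lt_and_le_two_mul (5 * N) (by omega)
  have hne : NeZero q := ⟨hq1.ne_zero⟩
  have hNr : (0 : ℝ) < N := by exact_mod_cast hN0
  have hqN : (q : ℝ) ≤ 10 * N := by
    have : q ≤ 10 * N := by omega
    exact_mod_cast this
  have hNq : (N : ℝ) ≤ q := by
    have : N ≤ q := by omega
    exact_mod_cast this
  have hq0 : (0 : ℝ) ≤ q := by positivity
  refine ⟨E, φ, q, hne, hE, hφ, hst, hq1, by omega, by omega, ?_, ?_⟩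
  · rw [hBR (d + 2) N q (gs h E) (by omega)]
    unfold UU at hN3
    rw [le_div_iff₀ (by positivity)] at hN3
    refine le_trans ?_ hN3
    have e1 : (q : ℝ) ^ (d + 3) ≤ (10 * N) ^ (d + 3) := pow_le_pow_left₀ hq0 hqN _
    rw [mul_pow] at e1
    have e2 : δ / 10 ^ (d + 3) * (q : ℝ) ^ (d + 3) ≤
        δ / 10 ^ (d + 3) * (10 ^ (d + 3) * (N : ℝ) ^ (d + 3)) :=
      mul_le_mul_of_nonneg_left e1 (div_pos hδ h10).le
    refine e2.trans (le_of_eq ?_)
    rw [← mul_assoc, div_mul_cancel₀ _ h10.ne']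
  · rw [hBR (d + 1) N q (gs h E) (by omega)]
    unfold UU at hN4
    rw [div_lt_iff₀ (by positivity)] at hN4
    refine lt_of_lt_of_le hN4 ?_
    exact mul_le_mul_of_nonneg_left (pow_le_pow_left₀ hNr.le hNq _) hδ'.le

end Pool.Agent.H11.GS
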